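import Pool.Agent.H3R3.Rigid.Main

/-!
# ZFC proves that there is a zero-dimensional `σ`-homogeneous rigid space

The space `X` is a subspace of the Cantor set and it is the union of two homogeneous subspaces
`A₀` and `A₁`.  The set `Aᵢ` is a union of cosets of a countable dense subgroup `Qᵢ` of the Cantor
group, where `Q₀ ∩ Q₁ = 0`; every union of cosets of a dense subgroup is homogeneous.  A
transfinite recursion of length continuum makes sure that no homeomorphism between subspaces of the
Cantor set other than the identity maps `X` onto `X`.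
-/

set_option autoImplicit false

namespace Pool.Agent.Results.MP_5382b1_gt.RigidSigmaHomogeneous

open Set Cardinal Topology Pool.Agent.H3R3.Rigid

/-- A space `Y` is homogeneous if every point can be moved to every other point by a homeomorphism
of `Y` onto itself. -/
def Homogeneous (Y : Type) [TopologicalSpace Y] : Prop :=
  ∀ x y : Y, ∃ h : Y ≃ₜ Y, h x = y

/-- A space `X` is `σ`-homogeneous if it is the union of countably many homogeneous subspaces. -/
def SigmaHomogeneous (X : Type) [TopologicalSpace X] : Prop :=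
  ∃ A : ℕ → Set X, (⋃ n, A n) = Set.univ ∧ ∀ n, Homogeneous (A n)

/-- A space `X` is rigid if it has at least two points and the identity is the only homeomorphism
of `X` onto itself. -/
def Rigid (X : Type) [TopologicalSpace X] : Prop :=
  Nontrivial X ∧ ∀ (h : X ≃ₜ X) (x : X), h x = x

lemma isClosed_agr (k : ℕ) (x : C) : IsClosed {y : C | Agr k x y} := by
  have h : {y : C | Agr k x y} = ⋂ i ∈ Set.Iio k, {y : C | y i = x i} := by
    ext y
    simp [Agr]
  rw [h]
  exact isClosed_biInter fun i _ => isClosed_eq (continuous_apply i) continuous_const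

lemma homogeneous_piece {A X : Set C} (hAX : A ⊆ X)
    (hA : ∀ x ∈ A, ∀ y ∈ A, ∃ H : C ≃ₜ C, H x = y ∧ ∀ p, p ∈ A ↔ H p ∈ A) :
    Homogeneous {x : X | x.1 ∈ A} := by
  intro x y
  obtain ⟨H, hH, hHA⟩ := hA x.1.1 x.2 y.1.1 y.2
  have hHA' : ∀ p, p ∈ A → H.symm p ∈ A := by
    intro p hp
    rw [hHA]; simpa using hp
  refine ⟨{ toFun := fun p => ⟨⟨H p.1.1, hAX ((hHA _).1 p.2)⟩, (hHA _).1 p.2⟩
            invFun := fun p => ⟨⟨H.symm p.1.1, hAX (hHA' _ p.2)⟩, hHA' _ p.2⟩
            left_inv := fun p => Subtype.ext (Subtype.ext (by simp))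
            right_inv := fun p => Subtype.ext (Subtype.ext (by simp))
            continuous_toFun := ?_
            continuous_invFun := ?_ }, ?_⟩
  · exact ((H.continuous.comp (continuous_subtype_val.comp continuous_subtype_val)).subtype_mk
      _).subtype_mk _
  · exact ((H.symm.continuous.comp (continuous_subtype_val.comp
      continuous_subtype_val)).subtype_mk _).subtype_mk _
  · exact Subtype.ext (Subtype.ext hH)

lemma move_false {A : Set C} (hA : ∀ p q, EE false p q → p ∈ A → q ∈ A) :
    ∀ x ∈ A, ∀ y ∈ A, ∃ H : C ≃ₜ C, H x = y ∧ ∀ p, p ∈ A ↔ H p ∈ A :=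
  fun x hx y hy => ⟨swapHomeo x y, swap_self x y, fun p => mem_swap_iff hA hx hy p⟩

lemma move_true {A : Set C} (hA : ∀ p q, EE true p q → p ∈ A → q ∈ A) :
    ∀ x ∈ A, ∀ y ∈ A, ∃ H : C ≃ₜ C, H x = y ∧ ∀ p, p ∈ A ↔ H p ∈ A := by
  intro x hx y hy
  have hB : ∀ p q, E0 p q → p ∈ triHomeo.symm ⁻¹' A → q ∈ triHomeo.symm ⁻¹' A := by
    intro p q hpq hp
    refine hA _ _ ?_ hp
    show E0 (triHomeo (triHomeo.symm p)) (triHomeo (triHomeo.symm q))
    simpa using hpq
  refine ⟨(triHomeo.trans (swapHomeo (tri x) (tri y))).trans triHomeo.symm, ?_, fun p => ?_⟩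
  · show triHomeo.symm (swap (tri x) (tri y) (tri x)) = y
    rw [swap_self, ← triHomeo_apply, Homeomorph.symm_apply_apply]
  · have hx' : tri x ∈ triHomeo.symm ⁻¹' A := by
      show triHomeo.symm (triHomeo x) ∈ A
      simpa using hx
    have hy' : tri y ∈ triHomeo.symm ⁻¹' A := by
      show triHomeo.symm (triHomeo y) ∈ A
      simpa using hy
    have h1 := mem_swap_iff hB hx' hy' (tri p)
    have h2 : tri p ∈ triHomeo.symm ⁻¹' A ↔ p ∈ A := by
      show triHomeo.symm (triHomeo p) ∈ A ↔ p ∈ A
      simp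
    rw [← h2]
    exact h1

/-- **Main theorem.**  There is a separable metrizable zero-dimensional space which is
`σ`-homogeneous (in fact the union of two homogeneous subspaces) and rigid. -/
theorem result :
    ∃ (X : Type) (_ : TopologicalSpace X),
      TopologicalSpace.SeparableSpace X ∧ TopologicalSpace.MetrizableSpace X ∧
      TopologicalSpace.IsTopologicalBasis {s : Set X | IsClopen s} ∧
      SigmaHomogeneous X ∧
      (∃ A B : Set X, A ∪ B = Set.univ ∧ Homogeneous A ∧ Homogeneous B) ∧
      Rigid X := by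
  obtain ⟨A, hA, hbig, hkill⟩ := exists_main
  set X : Set C := A false ∪ A true with hX
  have hf : Homogeneous {x : X | x.1 ∈ A false} :=
    homogeneous_piece subset_union_left (move_false (hA false))
  have ht : Homogeneous {x : X | x.1 ∈ A true} :=
    homogeneous_piece subset_union_right (move_true (hA true))
  have hun : {x : X | x.1 ∈ A false} ∪ {x : X | x.1 ∈ A true} = Set.univ :=
    eq_univ_iff_forall.2 fun x => x.2
  have hnt : Nontrivial X := by
    have h1 := hbig (fun _ => false) 0
    have h2 : 𝔠 ≤ #X := h1.trans (mk_le_mk_of_subset fun x hx => hx.1)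
    rw [← Cardinal.one_lt_iff_nontrivial]
    exact (one_lt_aleph0.trans aleph0_lt_continuum).trans_le h2
  refine ⟨X, inferInstance, inferInstance, inferInstance, ?_, ?_, ⟨_, _, hun, hf, ht⟩, hnt, ?_⟩
  · refine TopologicalSpace.isTopologicalBasis_of_isOpen_of_nhds (fun s hs => hs.2) ?_
    intro x U hxU hU
    obtain ⟨V, hV, rfl⟩ := isOpen_induced_iff.1 hU
    obtain ⟨k, hk⟩ := exists_agr_of_isOpen hV hxU
    refine ⟨{y : X | Agr k x.1 y.1}, ⟨?_, ?_⟩, agr_refl _ _, fun y hy => hk _ hy⟩
    · exact (isClosed_agr k x.1).preimage continuous_subtype_val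
    · exact (isOpen_agr k x.1).preimage continuous_subtype_val
  · refine ⟨fun n => Nat.casesOn n {x : X | x.1 ∈ A false} (fun _ => {x : X | x.1 ∈ A true}),
      ?_, ?_⟩
    · rw [eq_univ_iff_forall]
      intro x
      rw [mem_iUnion]
      rcases x.2 with h | h
      · exact ⟨0, h⟩
      · exact ⟨1, h⟩
    · intro n
      cases n
      · exact hf
      · exact ht
  · -- rigidity
    intro h x₀
    by_contra hne
    -- continuity in terms of agreement
    have hcont : ∀ (f : X ≃ₜ X) (x : X) (m : ℕ), ∃ k, ∀ y : X, Agr k x.1 y.1 →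
        Agr m (f x).1 (f y).1 := by
      intro f x m
      have h1 : IsOpen {y : X | Agr m (f x).1 (f y).1} :=
        (isOpen_agr m (f x).1).preimage (continuous_subtype_val.comp f.continuous)
      obtain ⟨V, hV, hVeq⟩ := isOpen_induced_iff.1 h1
      have h2 : x.1 ∈ V := by
        have : x ∈ Subtype.val ⁻¹' V := by rw [hVeq]; exact agr_refl _ _
        exact this
      obtain ⟨k, hk⟩ := exists_agr_of_isOpen hV h2
      refine ⟨k, fun y hy => ?_⟩
      have h3 : y ∈ Subtype.val ⁻¹' V := hk _ hy
      rw [hVeq] at h3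
      exact h3
    have : Nonempty X := ⟨x₀⟩
    let d : ℕ → X := TopologicalSpace.denseSeq X
    let g : ℕ → C × C := fun n => ((d n).1, (h (d n)).1)
    have hL : ∀ x : X, L g x.1 (h x).1 := by
      intro x
      refine ⟨fun k => ?_, fun m => ?_, fun m => ?_⟩
      · have h1 : IsOpen {y : X | Agr k x.1 y.1} :=
          (isOpen_agr k x.1).preimage continuous_subtype_val
        obtain ⟨y, hy, n, rfl⟩ := (TopologicalSpace.denseRange_denseSeq X).inter_open_nonempty _ h1
          ⟨x, agr_refl _ _⟩
        exact ⟨n, hy⟩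
      · obtain ⟨k, hk⟩ := hcont h x m
        exact ⟨k, fun n hn => hk _ hn⟩
      · obtain ⟨k, hk⟩ := hcont h.symm (h x) m
        refine ⟨k, fun n hn => ?_⟩
        have := hk (h (d n)) hn
        simpa using this
    -- a basic clopen set which is moved off itself
    obtain ⟨k, hk⟩ : ∃ k, ¬ Agr k x₀.1 (h x₀).1 := by
      by_contra hc
      push Not at hc
      exact hne (Subtype.ext (eq_of_agr hc).symm)
    obtain ⟨k', hk'⟩ := hcont h x₀ k
    have hmove : ∀ x : X, Agr (max k k') x₀.1 x.1 → ¬ Agr (max k k') x₀.1 (h x).1 := by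
      intro x hx h1
      have h2 := hk' x (hx.mono (le_max_right _ _))
      have h3 := h1.mono (le_max_left k k')
      exact hk (h3.trans h2.symm)
    let t : Task := (g, (x₀.1, max k k'))
    have hcand : ∀ x : X, Agr (max k k') x₀.1 x.1 → (x.1, (h x).1) ∈ Cand t :=
      fun x hx => ⟨hL x, hx, hmove x hx⟩
    have hbig' : 𝔠 ≤ #(Cand t) := by
      refine (hbig x₀.1 (max k k')).trans ?_
      refine mk_le_of_injective (f := fun x : {x : C | x ∈ A false ∪ A true ∧
        Agr (max k k') x₀.1 x} => (⟨(x.1, (h ⟨x.1, x.2.1⟩).1), hcand ⟨x.1, x.2.1⟩ x.2.2⟩ :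
          Cand t)) ?_
      intro x y hxy
      exact Subtype.ext (congrArg (fun p : Cand t => p.1.1) hxy)
    obtain ⟨p, hp, hp1, hp2⟩ := hkill t hbig'
    have h1 : p.2 = (h ⟨p.1, hp1⟩).1 := hp.1.right_unique (hL ⟨p.1, hp1⟩)
    apply hp2
    rw [h1]
    exact (h ⟨p.1, hp1⟩).2

end Pool.Agent.Results.MP_5382b1_gt.RigidSigmaHomogeneous
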